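import Mathlib

set_option autoImplicit false

/-!
Cycles of the maps `T_{a,b}` on the integers: the defects `p log 2 - n log a` of pairwise different
cycles have a sum bounded by the harmonic sum over the union of the cycles.
-/

namespace Pool.Agent.H884R2.Cyc
open Finset

/-- The map `T_{a,b}` on the integers. -/
def T (a b x : ℤ) : ℤ := if x % 2 = 0 then x / 2 else (a * x + b) / 2

theorem abs_log_sub_log_le {u v m : ℝ} (hm : 0 < m) (hu : m ≤ u) (hv : m ≤ v) :
    |Real.log u - Real.log v| ≤ |u - v| / m := by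
  have hu0 : 0 < u := lt_of_lt_of_le hm hu
  have hv0 : 0 < v := lt_of_lt_of_le hm hv
  have key : ∀ u v : ℝ, m ≤ u → m ≤ v → Real.log u - Real.log v ≤ |u - v| / m := by
    intro u v hu hv
    have hu0 : 0 < u := lt_of_lt_of_le hm hu
    have hv0 : 0 < v := lt_of_lt_of_le hm hv
    rw [← Real.log_div hu0.ne' hv0.ne']
    have h1 : Real.log (u / v) ≤ u / v - 1 := Real.log_le_sub_one_of_pos (by positivity)
    have h2 : u / v - 1 = (u - v) / v := by field_simp
    have h3 : (u - v) / v ≤ |u - v| / v := div_le_div_of_nonneg_right (le_abs_self _) hv0.le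
    have h4 : |u - v| / v ≤ |u - v| / m := div_le_div_of_nonneg_left (abs_nonneg _) hm hv
    linarith
  rw [abs_le]
  constructor
  · have := key v u hv hu
    rw [abs_sub_comm] at this
    linarith
  · exact key u v hu hv

/-- One step of the map changes `log |x|` by `-log 2` (even `x`) or by `log a - log 2` up to
`b² / |x|` (odd `x`). -/
theorem step (a b : ℤ) (ha : Odd a) (hb : Odd b) (ha3 : 3 ≤ a) (x : ℤ) (hx : x ≠ 0)
    (hTx : T a b x ≠ 0) :
    |Real.log |((T a b x : ℤ) : ℝ)| - Real.log |(x : ℝ)| + Real.log 2 -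
      (if x % 2 = 1 then Real.log a else 0)| ≤ (b : ℝ) ^ 2 / |(x : ℝ)| := by
  have hxr : (x : ℝ) ≠ 0 := by exact_mod_cast hx
  have hxpos : 0 < |(x : ℝ)| := abs_pos.2 hxr
  rcases Int.emod_two_eq_zero_or_one x with h | h
  · have h1 : T a b x = x / 2 := by unfold T; rw [if_pos h]
    have h2 : ((T a b x : ℤ) : ℝ) = x / 2 := by
      rw [h1]
      obtain ⟨y, hy⟩ : (2 : ℤ) ∣ x := Int.dvd_of_emod_eq_zero h
      rw [hy]
      rw [Int.mul_ediv_cancel_left _ (by norm_num)]
      push_cast; ring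
    have h3 : ¬ (x % 2 = 1) := by omega
    rw [if_neg h3, h2, abs_div, abs_of_pos (by norm_num : (0 : ℝ) < 2),
      Real.log_div hxpos.ne' (by norm_num)]
    have : Real.log |(x : ℝ)| - Real.log 2 - Real.log |(x : ℝ)| + Real.log 2 - 0 = 0 := by ring
    rw [this, abs_zero]
    positivity
  · have h1 : T a b x = (a * x + b) / 2 := by unfold T; rw [if_neg (by omega)]
    have hodd : Odd x := Int.odd_iff.2 h
    obtain ⟨y, hy⟩ : (2 : ℤ) ∣ a * x + b := ((ha.mul hodd).add_odd hb).two_dvd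
    have h2 : ((T a b x : ℤ) : ℝ) = (a * x + b) / 2 := by
      rw [h1, hy, Int.mul_ediv_cancel_left _ (by norm_num)]
      have : ((a : ℝ) * x + b) = 2 * y := by exact_mod_cast hy
      rw [this]; ring
    have hne : a * x + b ≠ 0 := by
      intro h0
      apply hTx
      rw [h1, h0]; simp
    have har : (3 : ℝ) ≤ a := by exact_mod_cast ha3
    have hner : (a : ℝ) * x + b ≠ 0 := by exact_mod_cast hne
    rw [if_pos h, h2, abs_div, abs_of_pos (by norm_num : (0 : ℝ) < 2),
      Real.log_div (abs_ne_zero.2 hner) (by norm_num)]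
    have e : Real.log |(a : ℝ) * x + b| - Real.log 2 - Real.log |(x : ℝ)| + Real.log 2 -
        Real.log a = Real.log |(a : ℝ) * x + b| - Real.log |(a : ℝ) * x| := by
      rw [abs_mul, Real.log_mul (by positivity) hxpos.ne', abs_of_pos (by linarith : (0 : ℝ) < a)]
      ring
    rw [e]
    have hb0 : b ≠ 0 := by
      rintro rfl
      exact absurd hb (by decide)
    have hbr : (1 : ℝ) ≤ |(b : ℝ)| := by
      have : 1 ≤ |b| := Int.one_le_abs hb0
      exact_mod_cast this
    have hb' : 0 < |(b : ℝ)| := by linarith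
    have hm : 0 < |(x : ℝ)| / |(b : ℝ)| := by positivity
    have hm1 : |(x : ℝ)| / |(b : ℝ)| ≤ |(a : ℝ) * x| := by
      rw [abs_mul, abs_of_pos (by linarith : (0 : ℝ) < a)]
      rw [div_le_iff₀ hb']
      nlinarith [mul_nonneg hxpos.le hb'.le]
    have hm2 : |(x : ℝ)| / |(b : ℝ)| ≤ |(a : ℝ) * x + b| := by
      rw [div_le_iff₀ hb']
      rcases le_or_gt |(b : ℝ)| |(x : ℝ)| with h5 | h5
      · have h6 : |(x : ℝ)| ≤ |(a : ℝ) * x + b| := by
          have h7 : |(a : ℝ) * x| - |(b : ℝ)| ≤ |(a : ℝ) * x + b| := by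
            have := abs_sub_abs_le_abs_sub ((a : ℝ) * x) (-(b : ℝ))
            rw [abs_neg, sub_neg_eq_add] at this
            exact this
          rw [abs_mul, abs_of_pos (by linarith : (0 : ℝ) < a)] at h7
          nlinarith
        nlinarith [abs_nonneg ((a : ℝ) * x + b)]
      · have h6 : (1 : ℝ) ≤ |(a : ℝ) * x + b| := by
          have : 1 ≤ |a * x + b| := Int.one_le_abs hne
          exact_mod_cast this
        nlinarith
    refine (abs_log_sub_log_le hm hm2 hm1).trans ?_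
    have h8 : |(|(a : ℝ) * x + b| - |(a : ℝ) * x|)| ≤ |(b : ℝ)| := by
      refine (abs_abs_sub_abs_le_abs_sub _ _).trans ?_
      rw [add_sub_cancel_left]
    have h9 : |(b : ℝ)| / (|(x : ℝ)| / |(b : ℝ)|) = (b : ℝ) ^ 2 / |(x : ℝ)| := by
      rw [← sq_abs (b : ℝ)]
      field_simp
    rw [← h9]
    exact div_le_div_of_nonneg_right h8 hm.le

/-- Nonzero periodic points have nonzero orbits. -/
theorem iterate_ne_zero (a b x : ℤ) (hx : x ≠ 0) (hper : x ∈ Function.periodicPts (T a b))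
    (j : ℕ) : (T a b)^[j] x ≠ 0 := by
  intro h
  obtain ⟨n, hn, hp⟩ := hper
  have h0 : ∀ k, (T a b)^[k] 0 = 0 := by
    intro k
    apply Function.iterate_fixed
    unfold T; simp
  obtain ⟨k, hk⟩ : ∃ k, j ≤ k * n := ⟨j, Nat.le_mul_of_pos_right j hn⟩
  have h1 : (T a b)^[k * n] x = x := (hp.const_mul k)
  have h2 : (T a b)^[k * n] x = (T a b)^[k * n - j] ((T a b)^[j] x) := by
    rw [← Function.iterate_add_apply, Nat.sub_add_cancel hk]
  rw [h, h0, h1] at h2
  exact hx h2

/-- The defect of a cycle is bounded by its harmonic sum. -/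
theorem defect (a b : ℤ) (ha : Odd a) (hb : Odd b) (ha3 : 3 ≤ a) (x : ℤ) (hx : x ≠ 0)
    (p : ℕ) (hp : 0 < p) (hper : (T a b)^[p] x = x) :
    ∃ n : ℕ, |(p : ℝ) * Real.log 2 - n * Real.log a| ≤
      (b : ℝ) ^ 2 * ∑ j ∈ range p, 1 / |(((T a b)^[j] x : ℤ) : ℝ)| := by
  have hpp : x ∈ Function.periodicPts (T a b) := ⟨p, hp, hper⟩
  have hne := iterate_ne_zero a b x hx hpp
  set y : ℕ → ℤ := fun j => (T a b)^[j] x with hy
  have hy1 : ∀ j, y (j + 1) = T a b (y j) := by
    intro j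
    simp only [hy]
    rw [Function.iterate_succ_apply']
  refine ⟨((range p).filter (fun j => y j % 2 = 1)).card, ?_⟩
  have htel : ∑ j ∈ range p, (Real.log |((y (j + 1) : ℤ) : ℝ)| - Real.log |((y j : ℤ) : ℝ)|) = 0 := by
    rw [Finset.sum_range_sub (fun j => Real.log |((y j : ℤ) : ℝ)|)]
    simp only [hy]
    rw [hper]
    simp
  have hsum : ∑ j ∈ range p, (Real.log |((y (j + 1) : ℤ) : ℝ)| - Real.log |((y j : ℤ) : ℝ)| +
      Real.log 2 - (if y j % 2 = 1 then Real.log a else 0)) =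
      (p : ℝ) * Real.log 2 - ((range p).filter (fun j => y j % 2 = 1)).card * Real.log a := by
    rw [Finset.sum_sub_distrib, Finset.sum_add_distrib, htel, ← Finset.sum_filter]
    simp
  rw [← hsum, Finset.mul_sum]
  refine (Finset.abs_sum_le_sum_abs _ _).trans (Finset.sum_le_sum fun j _ => ?_)
  have h1 := step a b ha hb ha3 (y j) (hne j) (by rw [← hy1]; exact hne (j + 1))
  rw [← hy1] at h1
  rw [mul_one_div]
  exact h1

/-- Harmonic sums over finite sets of nonzero integers. -/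
theorem harmonic_bound (F : Finset ℤ) (h0 : (0 : ℤ) ∉ F) (N : ℕ) (hN : 1 ≤ N) (hF : F.card ≤ N) :
    ∑ y ∈ F, 1 / |(y : ℝ)| ≤ 3 + 2 * Real.log N := by
  have hNr : (0 : ℝ) < N := by exact_mod_cast hN
  -- small elements
  have hH : ∑ k ∈ Finset.Icc 1 N, (1 : ℝ) / k ≤ 1 + Real.log N := by
    have h1 := harmonic_le_one_add_log N
    rw [harmonic_eq_sum_Icc] at h1
    push_cast at h1
    simpa [one_div] using h1
  have hinjs : ∀ G : Finset ℤ, (∀ y ∈ G, 0 < |y| ∧ |y| ≤ (N : ℤ)) → Set.InjOn Int.natAbs G →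
      ∑ y ∈ G, 1 / |(y : ℝ)| ≤ 1 + Real.log N := by
    intro G hG hinj
    have h1 : ∑ y ∈ G, 1 / |(y : ℝ)| = ∑ k ∈ G.image Int.natAbs, (1 : ℝ) / k := by
      rw [Finset.sum_image (fun x hx y hy h => hinj hx hy h)]
      refine Finset.sum_congr rfl fun y _ => ?_
      rw [Nat.cast_natAbs, Int.cast_abs]
    rw [h1]
    refine le_trans (Finset.sum_le_sum_of_subset_of_nonneg ?_ ?_) hH
    · intro k hk
      rw [Finset.mem_image] at hk
      obtain ⟨y, hy, rfl⟩ := hk
      have := hG y hy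
      rw [Int.abs_eq_natAbs] at this
      rw [Finset.mem_Icc]
      omega
    · intro k _ _
      positivity
  have hsplit : ∑ y ∈ F, 1 / |(y : ℝ)| =
      ∑ y ∈ F.filter (fun y => |y| ≤ (N : ℤ)), 1 / |(y : ℝ)| +
      ∑ y ∈ F.filter (fun y => ¬ |y| ≤ (N : ℤ)), 1 / |(y : ℝ)| :=
    (Finset.sum_filter_add_sum_filter_not F _ _).symm
  have hbig : ∑ y ∈ F.filter (fun y => ¬ |y| ≤ (N : ℤ)), 1 / |(y : ℝ)| ≤ 1 := by
    have h1 : ∀ y ∈ F.filter (fun y => ¬ |y| ≤ (N : ℤ)), 1 / |(y : ℝ)| ≤ 1 / (N : ℝ) := by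
      intro y hy
      rw [Finset.mem_filter, not_le] at hy
      apply one_div_le_one_div_of_le hNr
      have : ((N : ℤ) : ℝ) < ((|y| : ℤ) : ℝ) := by exact_mod_cast hy.2
      rw [Int.cast_abs] at this
      exact_mod_cast this.le
    refine (Finset.sum_le_sum h1).trans ?_
    rw [Finset.sum_const, nsmul_eq_mul, mul_one_div, div_le_one hNr]
    have : (F.filter (fun y => ¬ |y| ≤ (N : ℤ))).card ≤ N := (Finset.card_filter_le _ _).trans hF
    exact_mod_cast this
  have hsmall : ∑ y ∈ F.filter (fun y => |y| ≤ (N : ℤ)), 1 / |(y : ℝ)| ≤ 2 + 2 * Real.log N := by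
    rw [← Finset.sum_filter_add_sum_filter_not (F.filter (fun y => |y| ≤ (N : ℤ)))
      (fun y => 0 < y)]
    have h1 := hinjs ((F.filter (fun y => |y| ≤ (N : ℤ))).filter (fun y => 0 < y)) (by
      intro y hy
      rw [Finset.mem_filter, Finset.mem_filter] at hy
      exact ⟨abs_pos.2 (by omega), hy.1.2⟩) (by
      intro x hx y hy h
      simp only [Finset.coe_filter, Finset.mem_filter, Set.mem_ofPred_eq] at hx hy
      omega)
    have h2 := hinjs ((F.filter (fun y => |y| ≤ (N : ℤ))).filter (fun y => ¬ 0 < y)) (by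
      intro y hy
      rw [Finset.mem_filter, Finset.mem_filter] at hy
      refine ⟨abs_pos.2 ?_, hy.1.2⟩
      rintro rfl
      exact h0 hy.1.1) (by
      intro x hx y hy h
      simp only [Finset.coe_filter, Finset.mem_filter, Set.mem_ofPred_eq] at hx hy
      omega)
    linarith
  rw [hsplit]
  linarith

end Pool.Agent.H884R2.Cyc
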