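import Pool.Agent.H884R2.Cyc.Sum
import Pool.Agent.H319R2.GContr

set_option autoImplicit false

namespace Pool.Agent.H884R2.Cyc
open Finset Filter Topology

/-- The lengths of the cycles of `T_{a,b}` on the integers. -/
def lengths (a b : ℤ) : Set ℕ := {p | 0 < p ∧ ∃ x : ℤ, Function.minimalPeriod (T a b) x = p}

theorem isLittleO_aux (c δ ε : ℝ) (hδ : 0 < δ) (hε : 0 < ε) :
    ∃ P₀ : ℕ, ∀ P : ℕ, P₀ ≤ P → c * (1 + Real.log (P / δ)) ≤ ε * P := by
  have h1 : Tendsto (fun P : ℕ => (c * (1 + Real.log ((P : ℝ) / δ))) / P) atTop (𝓝 0) := by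
    have h2 : Tendsto (fun x : ℝ => Real.log x / x) atTop (𝓝 0) := by
      have := Real.isLittleO_log_id_atTop.tendsto_div_nhds_zero
      simpa using this
    have h3 : Tendsto (fun P : ℕ => (P : ℝ)) atTop atTop := tendsto_natCast_atTop_atTop
    have h4 := h2.comp h3
    have h5 : Tendsto (fun P : ℕ => (c * (1 - Real.log δ)) * (1 / (P : ℝ))) atTop (𝓝 0) := by
      have := (tendsto_const_div_atTop_nhds_zero_nat (1 : ℝ)).const_mul (c * (1 - Real.log δ))
      simpa using this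
    have h6 : Tendsto (fun P : ℕ => c * (Real.log (P : ℝ) / P) +
        (c * (1 - Real.log δ)) * (1 / (P : ℝ))) atTop (𝓝 0) := by
      have := (h4.const_mul c).add h5
      simpa using this
    refine h6.congr' ?_
    filter_upwards [eventually_gt_atTop 0] with P hP
    have hPr : (0 : ℝ) < P := by exact_mod_cast hP
    rw [Real.log_div hPr.ne' hδ.ne']
    field_simp
    ring
  have h7 := (h1.eventually (gt_mem_nhds hε)).and (eventually_gt_atTop 0)
  obtain ⟨P₀, hP₀⟩ := eventually_atTop.1 h7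
  refine ⟨P₀, fun P hP => ?_⟩
  obtain ⟨h8, h9⟩ := hP₀ P hP
  have hPr : (0 : ℝ) < P := by exact_mod_cast h9
  rw [div_lt_iff₀ hPr] at h8
  exact h8.le

theorem minimalPeriod_iterate_eq {f : ℤ → ℤ} {x y : ℤ} (hx : x ∈ Function.periodicPts f) (j : ℕ)
    (h : f^[j] x = y) : Function.minimalPeriod f y = Function.minimalPeriod f x := by
  rw [← h, Function.minimalPeriod_apply_iterate hx]

/-- The set of lengths of the cycles of `T_{a,b}` on the integers has natural density zero. -/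
theorem lengths_density (a b : ℤ) (ha : Odd a) (hb : Odd b) (ha3 : 3 ≤ a) (ε : ℝ) (hε : 0 < ε) :
    ∃ P₀ : ℕ, ∀ P : ℕ, P₀ ≤ P → ∀ F : Finset ℕ, (∀ p ∈ F, p ∈ lengths a b ∧ p ≤ P) →
      (F.card : ℝ) ≤ ε * P := by
  classical
  obtain ⟨m, rfl⟩ := Int.eq_ofNat_of_zero_le (show (0 : ℤ) ≤ a by omega)
  have hm3 : 3 ≤ m := by exact_mod_cast ha3
  have hmodd : Odd m := by exact_mod_cast ha
  have hirr : Irrational (Real.log (2 : ℕ) / Real.log m) :=
    Pool.Agent.H319R2.G.irr_log (le_refl 2) (by omega) (Nat.coprime_two_right.2 hmodd)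
  set θ : ℝ := Real.log 2 / Real.log ((m : ℤ) : ℝ) with hθ
  have hirr' : Irrational θ := by
    have : θ = Real.log (2 : ℕ) / Real.log m := by rw [hθ]; push_cast; rfl
    rw [this]; exact hirr
  obtain ⟨K, hK⟩ := exists_nat_gt (4 / ε)
  have hKpos : 0 < (K : ℝ) := lt_trans (by positivity) hK
  have hK1 : 1 ≤ K := by
    have : 0 < K := by exact_mod_cast hKpos
    omega
  obtain ⟨δ₀, hδ₀, hbohr⟩ := Pool.Agent.H319R2.G.bohr θ hirr' K hK1
  set δ : ℝ := min δ₀ 1 with hδ
  have hδpos : 0 < δ := lt_min hδ₀ one_pos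
  obtain ⟨A, hA, hcount⟩ := count_cycles (m : ℤ) b ha hb ha3
  obtain ⟨P₁, hP₁⟩ := isLittleO_aux (A / δ) δ (ε / 4) hδpos (by positivity)
  obtain ⟨P₂, hP₂⟩ := exists_nat_gt (8 / ε)
  refine ⟨max (max P₁ P₂) 1, ?_⟩
  intro P hP F hF
  have hPP₁ : P₁ ≤ P := le_trans (le_trans (le_max_left _ _) (le_max_left _ _)) hP
  have hPP₂ : P₂ ≤ P := le_trans (le_trans (le_max_right _ _) (le_max_left _ _)) hP
  have hP1 : 1 ≤ P := le_trans (le_max_right _ _) hP
  have hPr : (1 : ℝ) ≤ P := by exact_mod_cast hP1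
  have hP8 : 8 / ε < P := lt_of_lt_of_le hP₂ (by exact_mod_cast hPP₂)
  have hP8' : 8 ≤ ε * P := by
    rw [div_lt_iff₀ hε] at hP8
    linarith
  -- split
  set F₁ : Finset ℕ := F.filter (fun p => dist1 (p * θ) ≤ δ) with hF₁
  set F₂ : Finset ℕ := F.filter (fun p => ¬ dist1 (p * θ) ≤ δ) with hF₂
  have hsplit : F.card = F₁.card + F₂.card := by
    rw [hF₁, hF₂, Finset.card_filter_add_card_filter_not]
  have h1 : (F₁.card : ℝ) ≤ ε / 4 * P + 1 := by
    have h2 : F₁.card ≤ P / K + 1 := by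
      apply hbohr P F₁
      intro p hp
      rw [hF₁, mem_filter] at hp
      refine ⟨(hF p hp.1).2, round ((p : ℝ) * θ), ?_⟩
      exact hp.2.trans (min_le_left _ _)
    have h3 : ((P / K : ℕ) : ℝ) ≤ (P : ℝ) / K := Nat.cast_div_le
    have h4 : (P : ℝ) / K ≤ ε / 4 * P := by
      rw [div_le_iff₀ hKpos]
      have : 1 ≤ ε / 4 * K := by
        rw [div_lt_iff₀ hε] at hK
        linarith
      nlinarith
    have h5 : (F₁.card : ℝ) ≤ ((P / K : ℕ) : ℝ) + 1 := by exact_mod_cast h2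
    linarith
  -- choose a periodic point for every length in `F₂ \ {1}`
  have hex : ∀ p ∈ F₂.erase 1, ∃ x : ℤ, Function.minimalPeriod (T (m : ℤ) b) x = p := by
    intro p hp
    rw [mem_erase, hF₂, mem_filter] at hp
    exact (hF p hp.2.1).1.2
  choose! g hg using hex
  have hginj : Set.InjOn g (F₂.erase 1 : Finset ℕ) := by
    intro p hp q hq hpq
    rw [← hg p hp, ← hg q hq, hpq]
  have hgper : ∀ p ∈ F₂.erase 1, g p ∈ Function.periodicPts (T (m : ℤ) b) := by
    intro p hp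
    rw [← Function.minimalPeriod_pos_iff_mem_periodicPts, hg p hp]
    rw [mem_erase, hF₂, mem_filter] at hp
    exact (hF p hp.2.1).1.1
  have h6 := hcount δ hδpos (min_le_right _ _) P hP1 ((F₂.erase 1).image g) (by
    intro x hx
    rw [mem_image] at hx
    obtain ⟨p, hp, rfl⟩ := hx
    have hp' := hp
    rw [mem_erase, hF₂, mem_filter] at hp'
    refine ⟨?_, hgper p hp, ?_, ?_⟩
    · intro h0
      have h7 : Function.minimalPeriod (T (m : ℤ) b) 0 = 1 := by
        rw [Function.minimalPeriod_eq_one_iff_isFixedPt]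
        show T (m : ℤ) b 0 = 0
        unfold T; simp
      rw [← h0, hg p hp] at h7
      exact hp'.1 h7
    · rw [hg p hp]; exact (hF p hp'.2.1).2
    · rw [hg p hp]
      exact (not_le.1 hp'.2.2).le) (by
    intro x hx y hy j hj
    rw [mem_image] at hx hy
    obtain ⟨p, hp, rfl⟩ := hx
    obtain ⟨q, hq, rfl⟩ := hy
    have := minimalPeriod_iterate_eq (hgper p hp) j hj
    rw [hg p hp, hg q hq] at this
    rw [this])
  rw [card_image_of_injOn hginj] at h6
  have h7 : (F₂.card : ℝ) ≤ ((F₂.erase 1).card : ℝ) + 1 := by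
    have : F₂.card ≤ (F₂.erase 1).card + 1 := by
      have := Finset.pred_card_le_card_erase (s := F₂) (a := 1)
      omega
    exact_mod_cast this
  have h8 := hP₁ P hPP₁
  have h9 : (F.card : ℝ) = F₁.card + F₂.card := by exact_mod_cast hsplit
  rw [h9]
  linarith

end Pool.Agent.H884R2.Cyc
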