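import Pool.Agent.H884R2.Cyc.Basic

set_option autoImplicit false

namespace Pool.Agent.H884R2.Cyc
open Finset

/-- Distance to the nearest integer. -/
noncomputable def dist1 (y : ℝ) : ℝ := |y - round y|

theorem dist1_nonneg (y : ℝ) : 0 ≤ dist1 y := abs_nonneg _

theorem dist1_le (y : ℝ) (n : ℤ) : dist1 y ≤ |y - n| := round_le y n

/-- Pairwise different cycles of length at most `P`: the distances of `p log 2 / log a` to the
nearest integer have sum at most `b² (3 + 2 log (P M)) / log a`, where `M` is the number of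
cycles. -/
theorem sum_dist (a b : ℤ) (ha : Odd a) (hb : Odd b) (ha3 : 3 ≤ a) (P : ℕ) (hP : 1 ≤ P)
    (S : Finset ℤ) (hne : S.Nonempty)
    (hS : ∀ x ∈ S, x ≠ 0 ∧ x ∈ Function.periodicPts (T a b) ∧
      Function.minimalPeriod (T a b) x ≤ P)
    (hdist : ∀ x ∈ S, ∀ y ∈ S, ∀ j : ℕ, (T a b)^[j] x = y → x = y) :
    ∑ x ∈ S, dist1 (Function.minimalPeriod (T a b) x * (Real.log 2 / Real.log a)) ≤
      (b : ℝ) ^ 2 / Real.log a * (3 + 2 * Real.log ((P * S.card : ℕ) : ℝ)) := by
  classical
  set f := T a b with hf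
  set per : ℤ → ℕ := fun x => Function.minimalPeriod f x with hper
  have har : (3 : ℝ) ≤ a := by exact_mod_cast ha3
  have hloga : 0 < Real.log a := Real.log_pos (by linarith)
  have hpos : ∀ x ∈ S, 0 < per x := fun x hx =>
    Function.minimalPeriod_pos_iff_mem_periodicPts.2 (hS x hx).2.1
  -- the union of the cycles
  set F : Finset ℤ := S.biUnion (fun x => (range (per x)).image fun j => f^[j] x) with hF
  have hinj : ∀ x, Set.InjOn (fun j => f^[j] x) (range (per x) : Finset ℕ) := by
    intro x i hi j hj h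
    exact Function.iterate_injOn_Iio_minimalPeriod
      (by rw [Set.mem_Iio]; exact mem_range.1 hi) (by rw [Set.mem_Iio]; exact mem_range.1 hj) h
  have hdisj : ∀ x ∈ S, ∀ y ∈ S, x ≠ y →
      Disjoint ((range (per x)).image fun j => f^[j] x) ((range (per y)).image fun j => f^[j] y) := by
    intro x hx y hy hxy
    rw [disjoint_left]
    intro z hz1 hz2
    rw [mem_image] at hz1 hz2
    obtain ⟨i, hi, hzi⟩ := hz1
    obtain ⟨j, hj, hzj⟩ := hz2
    apply hxy
    have hj' : j < per y := mem_range.1 hj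
    have hy' : f^[per y - j] z = y := by
      rw [← hzj, ← Function.iterate_add_apply, Nat.sub_add_cancel hj'.le]
      exact Function.iterate_minimalPeriod
    have : f^[per y - j + i] x = y := by
      rw [Function.iterate_add_apply, hzi, hy']
    exact hdist x hx y hy _ this
  have hsum : ∑ z ∈ F, 1 / |(z : ℝ)| = ∑ x ∈ S, ∑ j ∈ range (per x), 1 / |((f^[j] x : ℤ) : ℝ)| := by
    rw [hF, sum_biUnion]
    · apply sum_congr rfl
      intro x _
      rw [sum_image]
      exact hinj x
    · intro x hx y hy hxy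
      exact hdisj x hx y hy hxy
  have hcard : F.card ≤ P * S.card := by
    refine (Finset.card_biUnion_le).trans ?_
    calc ∑ x ∈ S, ((range (per x)).image fun j => f^[j] x).card ≤ ∑ _x ∈ S, P := by
          refine Finset.sum_le_sum fun x hx => ?_
          refine (Finset.card_image_le).trans ?_
          rw [card_range]
          exact (hS x hx).2.2
      _ = P * S.card := by rw [sum_const, smul_eq_mul, mul_comm]
  have h0 : (0 : ℤ) ∉ F := by
    intro h
    rw [hF, mem_biUnion] at h
    obtain ⟨x, hx, h⟩ := h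
    rw [mem_image] at h
    obtain ⟨j, _, hj⟩ := h
    exact iterate_ne_zero a b x (hS x hx).1 (hS x hx).2.1 j hj
  have hN : 1 ≤ P * S.card := Nat.one_le_iff_ne_zero.2 (by
    have := hne.card_pos
    positivity)
  have hharm := harmonic_bound F h0 (P * S.card) hN hcard
  rw [hsum] at hharm
  have hstep : ∀ x ∈ S, dist1 (per x * (Real.log 2 / Real.log a)) ≤
      (b : ℝ) ^ 2 / Real.log a * ∑ j ∈ range (per x), 1 / |((f^[j] x : ℤ) : ℝ)| := by
    intro x hx
    obtain ⟨n, hn⟩ := defect a b ha hb ha3 x (hS x hx).1 (per x) (hpos x hx)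
      Function.iterate_minimalPeriod
    have h1 := dist1_le (per x * (Real.log 2 / Real.log a)) (n : ℤ)
    refine h1.trans ?_
    have h2 : (per x : ℝ) * (Real.log 2 / Real.log a) - ((n : ℤ) : ℝ) =
        ((per x : ℝ) * Real.log 2 - n * Real.log a) / Real.log a := by
      push_cast
      field_simp
    rw [h2, abs_div, abs_of_pos hloga, div_mul_eq_mul_div]
    exact div_le_div_of_nonneg_right hn hloga.le
  refine (Finset.sum_le_sum hstep).trans ?_
  rw [← Finset.mul_sum]
  exact mul_le_mul_of_nonneg_left hharm (by positivity)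

/-- The number of cycles of length at most `P` whose length `p` satisfies
`‖p log 2 / log a‖ ≥ δ`. -/
theorem count_cycles (a b : ℤ) (ha : Odd a) (hb : Odd b) (ha3 : 3 ≤ a) :
    ∃ A : ℝ, 0 < A ∧ ∀ δ : ℝ, 0 < δ → δ ≤ 1 → ∀ P : ℕ, 1 ≤ P → ∀ S : Finset ℤ,
      (∀ x ∈ S, x ≠ 0 ∧ x ∈ Function.periodicPts (T a b) ∧
        Function.minimalPeriod (T a b) x ≤ P ∧
        δ ≤ dist1 (Function.minimalPeriod (T a b) x * (Real.log 2 / Real.log a))) →
      (∀ x ∈ S, ∀ y ∈ S, ∀ j : ℕ, (T a b)^[j] x = y → x = y) →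
      (S.card : ℝ) ≤ A / δ * (1 + Real.log (P / δ)) := by
  have har : (3 : ℝ) ≤ a := by exact_mod_cast ha3
  have hloga : 0 < Real.log a := Real.log_pos (by linarith)
  -- the constant of `sum_dist`
  set K : ℝ := (b : ℝ) ^ 2 / Real.log a with hK
  have hb0 : (b : ℝ) ≠ 0 := by
    have : b ≠ 0 := by
      rintro rfl
      exact absurd hb (by decide)
    exact_mod_cast this
  have hKpos : 0 < K := by positivity
  refine ⟨2 * K * (3 + 2 * |Real.log (4 * K)|) + 2, by positivity, ?_⟩
  intro δ hδ hδ1 P hP S hS hdist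
  have hPr : (1 : ℝ) ≤ P := by exact_mod_cast hP
  have hlogPd : 0 ≤ Real.log (P / δ) := by
    apply Real.log_nonneg
    rw [le_div_iff₀ hδ]; linarith
  rcases S.eq_empty_or_nonempty with hSe | hSne
  · rw [hSe]; simp only [card_empty, Nat.cast_zero]; positivity
  have hsum := sum_dist a b ha hb ha3 P hP S hSne
    (fun x hx => ⟨(hS x hx).1, (hS x hx).2.1, (hS x hx).2.2.1⟩) hdist
  have hlow : (S.card : ℝ) * δ ≤
      ∑ x ∈ S, dist1 (Function.minimalPeriod (T a b) x * (Real.log 2 / Real.log a)) := by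
    rw [← nsmul_eq_mul]
    exact Finset.card_nsmul_le_sum S _ δ (fun x hx => (hS x hx).2.2.2)
  set M : ℝ := (S.card : ℝ) with hM
  have hM1 : 1 ≤ M := by
    rw [hM]; exact_mod_cast hSne.card_pos
  have hmain : M * δ ≤ K * (3 + 2 * Real.log (P * M)) := by
    refine hlow.trans (hsum.trans_eq ?_)
    rw [hK, hM]
    push_cast
    ring
  have hlogPM : Real.log (P * M) = Real.log P + Real.log M :=
    Real.log_mul (by linarith) (by linarith)
  -- `log M ≤ M δ / (4 K) + log (4 K / δ)`
  have hlogM : Real.log M ≤ M * δ / (4 * K) + Real.log (4 * K / δ) := by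
    have h1 : Real.log (M * δ / (4 * K)) ≤ M * δ / (4 * K) - 1 :=
      Real.log_le_sub_one_of_pos (by positivity)
    have h2 : Real.log M = Real.log (M * δ / (4 * K)) + Real.log (4 * K / δ) := by
      rw [← Real.log_mul (by positivity) (by positivity)]
      congr 1
      field_simp
    linarith
  have hlogd : Real.log (4 * K / δ) = Real.log (4 * K) - Real.log δ :=
    Real.log_div (by positivity) hδ.ne'
  have hlogPd2 : Real.log (P / δ) = Real.log P - Real.log δ :=
    Real.log_div (by linarith) hδ.ne'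
  have h3 : K * (2 * (M * δ / (4 * K))) = M * δ / 2 := by
    field_simp
    ring
  have h4 : M * δ ≤ K * (3 + 2 * Real.log P + 2 * Real.log (4 * K / δ)) + M * δ / 2 := by
    have h5 : K * (3 + 2 * Real.log (P * M)) ≤
        K * (3 + 2 * Real.log P + 2 * (M * δ / (4 * K) + Real.log (4 * K / δ))) := by
      apply mul_le_mul_of_nonneg_left _ hKpos.le
      rw [hlogPM]; linarith
    have h6 : K * (3 + 2 * Real.log P + 2 * (M * δ / (4 * K) + Real.log (4 * K / δ))) =
        K * (3 + 2 * Real.log P + 2 * Real.log (4 * K / δ)) + K * (2 * (M * δ / (4 * K))) := by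
      ring
    rw [h3] at h6
    linarith
  have h5 : M * δ ≤ 2 * K * (3 + 2 * Real.log (P / δ) + 2 * |Real.log (4 * K)|) := by
    have h6 : Real.log (4 * K) ≤ |Real.log (4 * K)| := le_abs_self _
    have h7 : K * (3 + 2 * Real.log P + 2 * Real.log (4 * K / δ)) ≤
        K * (3 + 2 * Real.log (P / δ) + 2 * |Real.log (4 * K)|) := by
      apply mul_le_mul_of_nonneg_left _ hKpos.le
      rw [hlogd, hlogPd2]; linarith
    linarith
  rw [div_mul_eq_mul_div, le_div_iff₀ hδ]
  refine h5.trans ?_
  have h8 : 0 ≤ |Real.log (4 * K)| := abs_nonneg _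
  nlinarith [mul_nonneg (mul_nonneg hKpos.le h8) hlogPd, mul_nonneg hKpos.le hlogPd]

end Pool.Agent.H884R2.Cyc
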